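import Pool.Agent.N637.SLX.Stm3
import Pool.Agent.N222.SLX.Eqs
import Pool.Agent.N494.SLX.Ser

/-! # SLX/AVG: the mean of `2 ^ s` under the law is `4` -/

set_option autoImplicit false
set_option linter.unusedVariables false

open scoped Classical

namespace Pool.Agent.N570.SLX

open Finset Filter Topology
open Pool.Agent.N637.SLX
open Pool.Agent.N916.GB (ps sx pt)
open Pool.Agent.N494.SLX (S t rec_S prod_S S_near summable_t t_SER)
open Pool.Agent.N222.SLX.Eqs (ch ch_sum ch_add fourier sx_self sx_lt sx_gt sx_symm sum_pairs card_ps_fin mem_ps ch_zero)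

/-! ### the series -/

/-- the finite products -/
noncomputable def Q (n : ℕ) : ℝ := ∏ i ∈ range n, (1 - (1 / 2 : ℝ) ^ (i + 1))

lemma Q_zero : Q 0 = 1 := by simp [Q]

lemma Q_succ (n : ℕ) : Q (n + 1) = Q n * (1 - (1 / 2 : ℝ) ^ (n + 1)) := by
  unfold Q; rw [prod_range_succ]

lemma half_pow (n : ℕ) : 0 < (1 / 2 : ℝ) ^ (n + 1) ∧ (1 / 2 : ℝ) ^ (n + 1) ≤ 1 / 2 := by
  refine ⟨by positivity, ?_⟩
  rw [pow_succ]
  have : (1 / 2 : ℝ) ^ n ≤ 1 := pow_le_one₀ (by norm_num) (by norm_num)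
  linarith

lemma Q_pos (n : ℕ) : 0 < Q n := by
  induction n with
  | zero => rw [Q_zero]; norm_num
  | succ n ih =>
    rw [Q_succ]
    have := half_pow n
    exact mul_pos ih (by linarith)

lemma Q_anti : Antitone Q := by
  refine antitone_nat_of_succ_le fun n => ?_
  rw [Q_succ]
  have := half_pow n
  have := Q_pos n
  nlinarith

lemma S_tendsto : Tendsto (fun L : ℕ => S L) atTop (𝓝 1) := by
  rw [tendsto_iff_norm_sub_tendsto_zero]
  have h1 : Tendsto (fun L : ℕ => 2 * (1 / 2 : ℝ) ^ L) atTop (𝓝 0) := by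
    have h2 : Tendsto (fun n : ℕ => (1 / 2 : ℝ) ^ n) atTop (𝓝 0) :=
      tendsto_pow_atTop_nhds_zero_of_lt_one (by norm_num) (by norm_num)
    simpa using h2.const_mul 2
  exact squeeze_zero (fun L => norm_nonneg _) (fun L => by
    rw [Real.norm_eq_abs]; exact S_near L) h1

lemma S_prod (r : ℕ) : S 0 = Q r * S r := by
  have h := prod_S 0 r
  simp only [Nat.zero_add] at h
  rw [h]
  unfold Q
  congr 1
  refine prod_congr rfl fun l _ => ?_
  rw [add_comm 1 l]

lemma S_pos (r : ℕ) : 0 < S r := by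
  have h1 : 0 < S (r + 2) := by
    have h := S_near (r + 2)
    rw [abs_le] at h
    have h2 : (1 / 2 : ℝ) ^ (r + 2) ≤ (1 / 2) ^ 2 :=
      pow_le_pow_of_le_one (by norm_num) (by norm_num) (by omega)
    norm_num at h2
    linarith [h.1]
  have h2 := rec_S r
  have h3 := rec_S (r + 1)
  have h4 := half_pow r
  have h5 := half_pow (r + 1)
  have h6 : 0 < S (r + 1) := by
    rw [h3]; exact mul_pos (by linarith) h1
  rw [h2]; exact mul_pos (by linarith) h6

lemma Q_tendsto : Tendsto Q atTop (𝓝 (S 0)) := by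
  have h := (tendsto_const_nhds (x := S 0) (f := (atTop : Filter ℕ))).div S_tendsto one_ne_zero
  rw [div_one] at h
  refine h.congr fun r => ?_
  simp only [Pi.div_apply]
  rw [S_prod r]
  field_simp [(S_pos r).ne']

lemma Q_ge (n : ℕ) : S 0 ≤ Q n := Q_anti.le_of_tendsto Q_tendsto n

lemma Q_inv (n : ℕ) : 1 / Q n ≤ 1 / S 0 := one_div_le_one_div_of_le (S_pos 0) (Q_ge n)

/-- the terms -/
noncomputable def ft (a k : ℕ) : ℝ := (1 / 2 : ℝ) ^ (k * k + a * k) / (Q k * Q (k + a))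

lemma ft_pos (a k : ℕ) : 0 < ft a k := by
  unfold ft
  have := Q_pos k
  have := Q_pos (k + a)
  positivity

lemma ft_le (a k : ℕ) : ft a k ≤ (1 / S 0) ^ 2 * (1 / 2 : ℝ) ^ (k * k + a * k) := by
  unfold ft
  have h1 := Q_inv k
  have h2 := Q_inv (k + a)
  have h3 := Q_pos k
  have h4 := Q_pos (k + a)
  have h5 := S_pos 0
  have e : (1 / 2 : ℝ) ^ (k * k + a * k) / (Q k * Q (k + a)) =
      (1 / Q k * (1 / Q (k + a))) * (1 / 2 : ℝ) ^ (k * k + a * k) := by
    field_simp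
  rw [e]
  have h6 : 1 / Q k * (1 / Q (k + a)) ≤ (1 / S 0) ^ 2 := by
    rw [pow_two]
    exact mul_le_mul h1 h2 (by positivity) (by positivity)
  exact mul_le_mul_of_nonneg_right h6 (by positivity)

lemma ft_le' (a k : ℕ) : ft a k ≤ (1 / S 0) ^ 2 * (1 / 2 : ℝ) ^ k := by
  refine (ft_le a k).trans ?_
  have h5 := S_pos 0
  refine mul_le_mul_of_nonneg_left ?_ (by positivity)
  refine pow_le_pow_of_le_one (by norm_num) (by norm_num) ?_
  rcases k with - | k
  · simp
  · nlinarith [Nat.zero_le (a * (k + 1))]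

lemma ft_summable (a : ℕ) : Summable (ft a) :=
  Summable.of_nonneg_of_le (fun k => (ft_pos a k).le) (ft_le' a)
    ((summable_geometric_of_lt_one (by norm_num) (by norm_num)).mul_left _)

/-- the sum -/
noncomputable def F (a : ℕ) : ℝ := ∑' k, ft a k

lemma F_pos (a : ℕ) : 0 ≤ F a := tsum_nonneg fun k => (ft_pos a k).le

lemma F_le (a : ℕ) : F a ≤ (1 / S 0) ^ 2 * 2 := by
  have h1 : HasSum (fun k : ℕ => (1 / S 0) ^ 2 * (1 / 2 : ℝ) ^ k) ((1 / S 0) ^ 2 * 2) := by
    have := hasSum_geometric_of_lt_one (by norm_num : (0 : ℝ) ≤ 1 / 2) (by norm_num)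
    have h5 : (1 - 1 / 2 : ℝ)⁻¹ = 2 := by norm_num
    rw [h5] at this
    exact this.mul_left _
  exact hasSum_le (ft_le' a) (ft_summable a).hasSum h1

lemma rec_ft (a k : ℕ) : ft a (k + 1) - ft (a + 1) (k + 1) =
    (1 / 2 : ℝ) ^ (a + 1) * (ft (a + 2) k - ft (a + 1) (k + 1)) := by
  unfold ft
  have h1 := Q_pos k
  have h2 := Q_pos (k + 1 + a)
  have e1 : k + 1 + (a + 1) = k + 1 + a + 1 := by ring
  have e2 : k + (a + 2) = k + 1 + a + 1 := by ring
  have h3 := half_pow k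
  have h4 := half_pow (k + 1 + a)
  rw [e1, e2, Q_succ k, Q_succ (k + 1 + a)]
  set x : ℝ := (1 / 2 : ℝ) ^ (k + 1) with hx
  set y : ℝ := (1 / 2 : ℝ) ^ (k + 1 + a + 1) with hy
  have hx1 : (1 : ℝ) - x ≠ 0 := by linarith [h3.2]
  have hy1 : (1 : ℝ) - y ≠ 0 := by linarith [h4.2]
  have g1 : (1 / 2 : ℝ) ^ ((k + 1) * (k + 1) + (a + 1) * (k + 1)) =
      (1 / 2 : ℝ) ^ ((k + 1) * (k + 1) + a * (k + 1)) * x := by
    rw [hx, ← pow_add]; congr 1; ring
  have g2 : (1 / 2 : ℝ) ^ ((k + 1) * (k + 1) + a * (k + 1)) =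
      (1 / 2 : ℝ) ^ (a + 1) * (1 / 2 : ℝ) ^ (k * k + (a + 2) * k) := by
    rw [← pow_add]; congr 1; ring
  have g3 : y = (1 / 2 : ℝ) ^ (a + 1) * x := by
    rw [hx, hy, ← pow_add]; congr 1; ring
  rw [g1, g2]
  set z : ℝ := (1 / 2 : ℝ) ^ (k * k + (a + 2) * k) with hz
  set w : ℝ := (1 / 2 : ℝ) ^ (a + 1) with hw
  have hq1 := h1.ne'
  have hq2 := h2.ne'
  rw [g3] at hy1 ⊢
  field_simp
  ring

lemma rec_F (a : ℕ) : F a - F (a + 1) = -((1 / 2 : ℝ) ^ (a + 1) * (F (a + 1) - F (a + 2))) := by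
  have h0 := (ft_summable a).tsum_eq_zero_add
  have h1 := (ft_summable (a + 1)).tsum_eq_zero_add
  have s0 := (summable_nat_add_iff 1).2 (ft_summable a)
  have s1 := (summable_nat_add_iff 1).2 (ft_summable (a + 1))
  have s2 := ft_summable (a + 2)
  have h2 : ∑' k, ft a (k + 1) - ∑' k, ft (a + 1) (k + 1) =
      (1 / 2 : ℝ) ^ (a + 1) * (∑' k, ft (a + 2) k - ∑' k, ft (a + 1) (k + 1)) := by
    rw [← s0.tsum_sub s1, ← s2.tsum_sub s1, ← tsum_mul_left]
    exact tsum_congr (rec_ft a)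
  have h3 : ft a 0 - ft (a + 1) 0 = -((1 / 2 : ℝ) ^ (a + 1) * ft (a + 1) 0) := by
    unfold ft
    simp only [Nat.zero_add, Q_zero, mul_zero, add_zero, pow_zero, one_mul]
    rw [Q_succ]
    have h4 := half_pow a
    have h5 := Q_pos a
    have h6 : (1 : ℝ) - (1 / 2) ^ (a + 1) ≠ 0 := by linarith [h4.2]
    field_simp
    ring
  unfold F
  rw [h0, h1]
  linear_combination h2 + h3

lemma D_bound (a n : ℕ) : |F a - F (a + 1)| ≤ (1 / 2 : ℝ) ^ n * ((1 / S 0) ^ 2 * 2) := by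
  induction n generalizing a with
  | zero =>
    rw [pow_zero, one_mul, abs_le]
    have h1 := F_pos a
    have h2 := F_pos (a + 1)
    have h3 := F_le a
    have h4 := F_le (a + 1)
    constructor <;> linarith
  | succ n ih =>
    rw [rec_F, abs_neg, abs_mul, abs_of_pos (half_pow a).1, pow_succ]
    have h1 := ih (a + 1)
    have h2 := (half_pow a).2
    have h3 := (half_pow a).1
    have h4 := abs_nonneg (F (a + 1) - F (a + 1 + 1))
    calc (1 / 2 : ℝ) ^ (a + 1) * |F (a + 1) - F (a + 2)| ≤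
        (1 / 2 : ℝ) * ((1 / 2 : ℝ) ^ n * ((1 / S 0) ^ 2 * 2)) := mul_le_mul h2 h1 h4 (by norm_num)
      _ = _ := by ring

lemma tz : Tendsto (fun n : ℕ => (1 / 2 : ℝ) ^ n * ((1 / S 0) ^ 2 * 2)) atTop (𝓝 0) := by
  have h2 : Tendsto (fun n : ℕ => (1 / 2 : ℝ) ^ n) atTop (𝓝 0) :=
    tendsto_pow_atTop_nhds_zero_of_lt_one (by norm_num) (by norm_num)
  have h9 := h2.mul_const ((1 / S 0) ^ 2 * 2)
  rw [zero_mul] at h9
  exact h9

lemma F_const (a : ℕ) : F a = F 0 := by
  induction a with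
  | zero => rfl
  | succ a ih =>
    rw [← ih]
    have h1 := tz
    have h3 : |F a - F (a + 1)| ≤ 0 := ge_of_tendsto' h1 (D_bound a)
    have h4 := abs_eq_zero.1 (le_antisymm h3 (abs_nonneg _))
    linarith

lemma F_near (a : ℕ) : |F a - 1 / Q a| ≤ (1 / 2 : ℝ) ^ a * ((1 / S 0) ^ 2 * 2) := by
  have h0 := (ft_summable a).tsum_eq_zero_add
  have h1 : F a - 1 / Q a = ∑' k, ft a (k + 1) := by
    unfold F
    rw [h0]
    unfold ft
    simp [Q_zero]
  have h4 : HasSum (fun k : ℕ => (1 / 2 : ℝ) ^ a * ((1 / S 0) ^ 2 * (1 / 2 : ℝ) ^ k))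
      ((1 / 2 : ℝ) ^ a * ((1 / S 0) ^ 2 * 2)) := by
    have := hasSum_geometric_of_lt_one (by norm_num : (0 : ℝ) ≤ 1 / 2) (by norm_num)
    have h5 : (1 - 1 / 2 : ℝ)⁻¹ = 2 := by norm_num
    rw [h5] at this
    exact (this.mul_left _).mul_left _
  rw [h1, ← Real.norm_eq_abs]
  refine tsum_of_norm_bounded h4 fun k => ?_
  rw [Real.norm_eq_abs, abs_of_pos (ft_pos _ _)]
  refine (ft_le a (k + 1)).trans ?_
  have h5 := S_pos 0
  have h6 : (1 / 2 : ℝ) ^ ((k + 1) * (k + 1) + a * (k + 1)) ≤ (1 / 2 : ℝ) ^ (a + k) :=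
    pow_le_pow_of_le_one (by norm_num) (by norm_num) (by nlinarith)
  calc (1 / S 0) ^ 2 * (1 / 2 : ℝ) ^ ((k + 1) * (k + 1) + a * (k + 1)) ≤
      (1 / S 0) ^ 2 * (1 / 2 : ℝ) ^ (a + k) := mul_le_mul_of_nonneg_left h6 (by positivity)
    _ = _ := by rw [pow_add]; ring

lemma F_val (a : ℕ) : F a = 1 / S 0 := by
  rw [F_const a]
  have h1 := tz
  have h2 : Tendsto (fun a : ℕ => F 0 - 1 / Q a) atTop (𝓝 0) := by
    rw [tendsto_zero_iff_abs_tendsto_zero]
    refine squeeze_zero (fun a => abs_nonneg _) (fun a => ?_) h1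
    simp only [Function.comp_apply]
    rw [← F_const a]
    exact F_near a
  have h3 : Tendsto (fun a : ℕ => F 0 - 1 / Q a) atTop (𝓝 (F 0 - 1 / S 0)) :=
    tendsto_const_nhds.sub (tendsto_const_nhds.div Q_tendsto (S_pos 0).ne')
  have h4 := tendsto_nhds_unique h2 h3
  linarith

/-- the distribution of Fouvry and Klüners -/
noncomputable def FK (r : ℕ) : ℝ := S 0 * (1 / 2 : ℝ) ^ (r * r) / (Q r * Q r)

lemma FK_nonneg (r : ℕ) : 0 ≤ FK r := by
  unfold FK
  have := S_pos 0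
  have := Q_pos r
  positivity

lemma FK_sum : HasSum FK 1 := by
  have h1 := ((ft_summable 0).hasSum).mul_left (S 0)
  have h2 : S 0 * ∑' k, ft 0 k = 1 := by
    have h3 := F_val 0
    unfold F at h3
    rw [h3]
    field_simp [(S_pos 0).ne']
  rw [h2] at h1
  refine h1.congr_fun fun r => ?_
  unfold FK ft
  rw [zero_mul, add_zero, add_zero, mul_div_assoc]

lemma FK_two : HasSum (fun r : ℕ => (2 : ℝ) ^ r * FK r) 2 := by
  have h1 := ((ft_summable 1).hasSum).mul_left (S 0)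
  have h2 : S 0 * ∑' k, ft 1 k = 1 := by
    have h3 := F_val 1
    unfold F at h3
    rw [h3]
    field_simp [(S_pos 0).ne']
  rw [h2] at h1
  have h3 : HasSum (fun r : ℕ => FK (r + 1)) (1 - S 0) := by
    rw [hasSum_nat_add_iff]
    simp only [range_one, sum_singleton]
    have : FK 0 = S 0 := by unfold FK; simp [Q_zero]
    rw [this]
    simpa using FK_sum
  rw [← hasSum_nat_add_iff' 1]
  simp only [range_one, sum_singleton]
  have h4 : (2 : ℝ) ^ 0 * FK 0 = S 0 := by unfold FK; simp [Q_zero]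
  rw [h4]
  have h5 : (2 : ℝ) - S 0 = 1 + (1 - S 0) := by ring
  rw [h5]
  refine (h1.add h3).congr_fun fun r => ?_
  unfold FK ft
  have h6 := half_pow r
  have h7 := (Q_pos r).ne'
  have h8 : (1 : ℝ) - (1 / 2) ^ (r + 1) ≠ 0 := by linarith [h6.2]
  rw [Q_succ]
  have e1 : (1 / 2 : ℝ) ^ ((r + 1) * (r + 1)) = (1 / 2 : ℝ) ^ (r * r + 1 * r) * (1 / 2 : ℝ) ^ (r + 1) := by
    rw [← pow_add]; congr 1; ring
  have e2 : (2 : ℝ) ^ (r + 1) * (1 / 2 : ℝ) ^ (r + 1) = 1 := by
    rw [← mul_pow]; norm_num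
  rw [e1]
  set x : ℝ := (1 / 2 : ℝ) ^ (r + 1) with hx
  set z : ℝ := (1 / 2 : ℝ) ^ (r * r + 1 * r) with hz
  have e3 : (2 : ℝ) ^ (r + 1) = 1 / x := by
    rw [eq_div_iff h6.1.ne']; exact e2
  rw [e3]
  have h9 := h6.1.ne'
  field_simp
  ring

/-! ### the matrices -/

/-- the kernel of the matrix -/
noncomputable def Ke {n : ℕ} (M : Fin n → Fin n → ZMod 2) : Finset (Fin n → ZMod 2) :=
  univ.filter fun x : Fin n → ZMod 2 => ∀ a, ∑ b, M a b * x b = 0

lemma Ke_card {n : ℕ} (M : Fin n → Fin n → ZMod 2) : ∃ j ≤ n, (Ke M).card = 2 ^ j := by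
  have : Fact (Nat.Prime 2) := ⟨Nat.prime_two⟩
  let W : Submodule (ZMod 2) (Fin n → ZMod 2) :=
    { carrier := {x | ∀ a, ∑ b, M a b * x b = 0}
      add_mem' := by
        intro x y hx hy a
        have h1 := hx a
        have h2 := hy a
        simp only [Pi.add_apply, mul_add, sum_add_distrib, h1, h2, add_zero]
      zero_mem' := by intro a; simp
      smul_mem' := by
        intro c x hx a
        have h1 := hx a
        simp only [Pi.smul_apply, smul_eq_mul]
        have : ∑ b, M a b * (c * x b) = c * ∑ b, M a b * x b := by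
          rw [mul_sum]; exact sum_congr rfl fun b _ => by ring
        rw [this, h1, mul_zero] }
  refine ⟨Module.finrank (ZMod 2) W, ?_, ?_⟩
  · have := Submodule.finrank_le W
    rwa [Module.finrank_fin_fun] at this
  · have h1 := Module.card_eq_pow_finrank (K := ZMod 2) (V := W)
    rw [ZMod.card] at h1
    rw [← h1, Ke, ← Fintype.card_subtype]
    exact Fintype.card_congr (Equiv.refl _)

/-- the alternating matrices -/
noncomputable def AL (n : ℕ) : Finset (Fin n → Fin n → ZMod 2) := univ.filter fun M => Alt M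

lemma alt_sum (n : ℕ) (f : ℕ → ℝ) (g : ℕ → ℝ) (hg : ∀ j, g (2 ^ j) = f j) :
    ∑ j ∈ range (n + 1), (alt n j : ℝ) * f j = ∑ M ∈ AL n, g (Ke M).card := by
  have h1 : ∀ M ∈ AL n, Nat.log 2 (Ke M).card ∈ range (n + 1) := by
    intro M _
    obtain ⟨j, hj, h⟩ := Ke_card M
    rw [h, Nat.log_pow (by norm_num), mem_range]
    omega
  rw [← sum_fiberwise_of_maps_to h1]
  refine sum_congr rfl fun j _ => ?_
  have h2 : (AL n).filter (fun M => Nat.log 2 (Ke M).card = j) =
      univ.filter fun M : Fin n → Fin n → ZMod 2 => Alt M ∧ Cor M j := by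
    ext M
    simp only [AL, mem_filter, mem_univ, true_and]
    refine and_congr_right fun _ => ?_
    obtain ⟨k, hk, h⟩ := Ke_card M
    have h3 : Cor M j ↔ (Ke M).card = 2 ^ j := Iff.rfl
    rw [h3, h, Nat.log_pow (by norm_num)]
    constructor
    · rintro rfl; rfl
    · intro h4; exact Nat.pow_right_injective (le_refl 2) h4
  rw [h2]
  have h4 : ∀ M ∈ univ.filter (fun M : Fin n → Fin n → ZMod 2 => Alt M ∧ Cor M j),
      g (Ke M).card = f j := by
    intro M hM
    rw [mem_filter] at hM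
    have h3 : (Ke M).card = 2 ^ j := hM.2.2
    rw [h3, hg]
  rw [sum_congr rfl h4, sum_const, nsmul_eq_mul]
  rfl

lemma alt_zero {n j : ℕ} (h : n < j) : alt n j = 0 := by
  unfold alt
  rw [card_eq_zero, filter_eq_empty_iff]
  rintro M - ⟨-, h1⟩
  obtain ⟨k, hk, h2⟩ := Ke_card M
  have h3 : (Ke M).card = 2 ^ j := h1
  rw [h2] at h3
  have h4 := Nat.pow_right_injective (le_refl 2) h3
  omega

/-- the parametrisation -/
lemma AL_sum {n : ℕ} {A : Type} [AddCommMonoid A] (f : (Fin n → Fin n → ZMod 2) → A) :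
    ∑ M ∈ AL n, f M = ∑ σ : ps (Fin n) → ZMod 2, f (sx σ) := by
  symm
  refine sum_bij' (fun σ _ => sx σ) (fun M _ => fun e : ps (Fin n) => M e.1.1 e.1.2) ?_ ?_ ?_ ?_ ?_
  · intro σ _
    simp only [AL, mem_filter, mem_univ, true_and]
    exact ⟨fun a => sx_self σ a, fun a b => sx_symm σ a b⟩
  · intro M _
    exact mem_univ _
  · intro σ _
    funext e
    exact sx_lt σ e
  · intro M hM
    simp only [AL, mem_filter, mem_univ, true_and] at hM
    funext a b
    rcases lt_trichotomy a b with h | h | h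
    · exact sx_lt _ ⟨(a, b), (mem_ps _).2 h⟩
    · rw [h, sx_self, hM.1]
    · rw [hM.2 a b]
      exact sx_gt _ ⟨(b, a), (mem_ps _).2 h⟩
  · intro σ _
    rfl

lemma AL_card (n : ℕ) : (AL n).card = 2 ^ (n * (n - 1) / 2) := by
  rw [card_eq_sum_ones, AL_sum]
  rw [sum_const, smul_eq_mul, mul_one, card_univ, Fintype.card_fun, Fintype.card_coe, ZMod.card,
    card_ps_fin]

/-- the number of the alternating matrices with a given vector in the kernel -/
lemma AL_vec {n : ℕ} (x : Fin n → ZMod 2) (hx : x ≠ 0) :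
    ((AL n).filter fun M => x ∈ Ke M).card * 2 ^ n = 2 ^ (n * (n - 1) / 2) * 2 := by
  have h1 : (((AL n).filter fun M => x ∈ Ke M).card : ℤ) =
      ∑ σ : ps (Fin n) → ZMod 2, if ∀ a, ∑ b, sx σ a b * x b = 0 then 1 else 0 := by
    rw [card_filter]
    push_cast
    rw [AL_sum]
    refine sum_congr rfl fun σ _ => ?_
    simp only [Ke, mem_filter, mem_univ, true_and]
  have h2 : (((AL n).filter fun M => x ∈ Ke M).card : ℤ) * 2 ^ n =
      ∑ σ : ps (Fin n) → ZMod 2, ∑ μ : Fin n → ZMod 2,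
        ch (∑ a, μ a * ∑ b, sx σ a b * x b) := by
    rw [h1, sum_mul]
    refine sum_congr rfl fun σ _ => ?_
    rw [fourier (fun a => ∑ b, sx σ a b * x b), Fintype.card_fin]
    split_ifs <;> simp
  have h3 : ∀ μ : Fin n → ZMod 2, ∀ σ : ps (Fin n) → ZMod 2,
      ∑ a, μ a * ∑ b, sx σ a b * x b =
      ∑ e : ps (Fin n), σ e * (μ e.1.1 * x e.1.2 + μ e.1.2 * x e.1.1) := by
    intro μ σ
    have h4 : ∑ a, μ a * ∑ b, sx σ a b * x b = ∑ a, ∑ b, μ a * (sx σ a b * x b) := by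
      simp only [mul_sum]
    rw [h4, sum_pairs]
    · refine sum_congr rfl fun e _ => ?_
      rw [sx_lt, sx_gt]
      ring
    · intro k
      rw [sx_self]
      ring
  obtain ⟨b0, hb0⟩ : ∃ b, x b ≠ 0 := by
    by_contra h
    push Not at h
    exact hx (funext h)
  have hb1 : x b0 = 1 := by
    have : ∀ z : ZMod 2, z ≠ 0 → z = 1 := by decide
    exact this _ hb0
  have h5 : (univ.filter fun μ : Fin n → ZMod 2 =>
      ∀ e : ps (Fin n), μ e.1.1 * x e.1.2 + μ e.1.2 * x e.1.1 = 0) = {0, x} := by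
    ext μ
    simp only [mem_filter, mem_univ, true_and, mem_insert, mem_singleton]
    constructor
    · intro h
      have h6 : ∀ k l, μ k * x l = μ l * x k := by
        intro k l
        rcases lt_trichotomy k l with hkl | hkl | hkl
        · exact CharTwo.add_eq_zero.1 (h ⟨(k, l), (mem_ps _).2 hkl⟩)
        · rw [hkl]
        · exact (CharTwo.add_eq_zero.1 (h ⟨(l, k), (mem_ps _).2 hkl⟩)).symm
      have h7 : ∀ k, μ k = μ b0 * x k := by
        intro k
        have := h6 k b0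
        rwa [hb1, mul_one] at this
      have h8 : μ b0 = 0 ∨ μ b0 = 1 := by
        have : ∀ z : ZMod 2, z = 0 ∨ z = 1 := by decide
        exact this _
      rcases h8 with h8 | h8
      · left; funext k; rw [h7 k, h8, zero_mul]; rfl
      · right; funext k; rw [h7 k, h8, one_mul]
    · rintro (rfl | rfl)
      · intro e; simp
      · intro e
        rw [mul_comm (μ e.1.2)]
        exact CharTwo.add_self_eq_zero _
  have h9 : (((AL n).filter fun M => x ∈ Ke M).card : ℤ) * 2 ^ n = 2 ^ (n * (n - 1) / 2) * 2 := by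
    rw [h2, sum_comm]
    simp only [h3]
    have h10 : ∀ μ : Fin n → ZMod 2, ∑ σ : ps (Fin n) → ZMod 2,
        ch (∑ e : ps (Fin n), σ e * (μ e.1.1 * x e.1.2 + μ e.1.2 * x e.1.1)) =
        if ∀ e : ps (Fin n), μ e.1.1 * x e.1.2 + μ e.1.2 * x e.1.1 = 0 then
          2 ^ (n * (n - 1) / 2) else 0 := by
      intro μ
      rw [fourier (fun e : ps (Fin n) => μ e.1.1 * x e.1.2 + μ e.1.2 * x e.1.1), Fintype.card_coe,
        card_ps_fin]
    simp only [h10]
    rw [← sum_filter, h5, sum_const, card_pair (Ne.symm hx), nsmul_eq_mul]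
    push_cast
    ring
  exact_mod_cast h9

lemma alt_one (n : ℕ) : ∑ j ∈ range (n + 1), (alt n j : ℝ) = 2 ^ (n * (n - 1) / 2) := by
  have h := alt_sum n (fun _ => 1) (fun _ => 1) (fun _ => rfl)
  simp only [mul_one, sum_const, nsmul_eq_mul] at h
  rw [h, AL_card]
  push_cast
  ring

lemma alt_two (n : ℕ) : ∑ j ∈ range (n + 1), (alt n j : ℝ) * 2 ^ j * 2 ^ n =
    2 ^ (n * (n - 1) / 2) * (3 * 2 ^ n - 2) := by
  have h := alt_sum n (fun j => 2 ^ j) (fun x => x) (fun j => by push_cast; rfl)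
  rw [← sum_mul, h]
  have h1 : ∑ M ∈ AL n, ((Ke M).card : ℝ) =
      ∑ x : Fin n → ZMod 2, (((AL n).filter fun M => x ∈ Ke M).card : ℝ) := by
    have h2 : ∑ M ∈ AL n, (Ke M).card = ∑ x : Fin n → ZMod 2, ((AL n).filter fun M => x ∈ Ke M).card := by
      have h3 : ∀ M ∈ AL n, (Ke M).card = ∑ x : Fin n → ZMod 2, if x ∈ Ke M then 1 else 0 := by
        intro M _
        rw [← card_filter]
        congr 1
        ext x
        simp
      rw [sum_congr rfl h3, sum_comm]
      refine sum_congr rfl fun x _ => ?_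
      rw [card_filter]
    exact_mod_cast h2
  rw [h1, sum_mul]
  have h3 : ∀ x : Fin n → ZMod 2, (((AL n).filter fun M => x ∈ Ke M).card : ℝ) * 2 ^ n =
      if x = 0 then 2 ^ (n * (n - 1) / 2) * 2 ^ n else 2 ^ (n * (n - 1) / 2) * 2 := by
    intro x
    split_ifs with hx
    · have h4 : (AL n).filter (fun M => x ∈ Ke M) = AL n := by
        rw [filter_eq_self]
        intro M _
        simp [Ke, hx]
      rw [h4, AL_card]
      push_cast
      ring
    · exact_mod_cast AL_vec x hx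
  rw [sum_congr rfl fun x _ => h3 x, sum_ite, sum_const, sum_const, filter_eq', if_pos (mem_univ _),
    card_singleton]
  have h5 : (univ.filter fun x : Fin n → ZMod 2 => ¬ x = 0).card = 2 ^ n - 1 := by
    rw [filter_not, filter_eq', if_pos (mem_univ _), card_sdiff_of_subset (subset_univ _),
      card_singleton, card_univ, Fintype.card_fun, Fintype.card_fin, ZMod.card]
  rw [h5, nsmul_eq_mul, nsmul_eq_mul, Nat.cast_sub Nat.one_le_two_pow]
  push_cast
  ring

/-! ### the law -/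

lemma gl_eq (r : ℕ) : (gl r : ℝ) = 2 ^ (r * r) * Q r := by
  unfold gl Q
  rw [← prod_range_reflect, Nat.cast_prod]
  have h1 : (2 : ℝ) ^ (r * r) = ∏ i ∈ range r, (2 : ℝ) ^ r := by
    rw [prod_const, card_range, ← pow_mul]
  rw [h1, ← prod_mul_distrib]
  refine prod_congr rfl fun i hi => ?_
  rw [mem_range] at hi
  have h2 : 2 ^ (r - 1 - i) ≤ 2 ^ r := Nat.pow_le_pow_right (by norm_num) (by omega)
  rw [Nat.cast_sub h2]
  push_cast
  have h3 : (2 : ℝ) ^ r = 2 ^ (r - 1 - i) * 2 ^ (i + 1) := by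
    rw [← pow_add]; congr 1; omega
  have h4 : (2 : ℝ) ^ (i + 1) * (1 / 2 : ℝ) ^ (i + 1) = 1 := by
    rw [← mul_pow]; norm_num
  rw [mul_sub, mul_one]
  congr 1
  rw [h3, mul_assoc, h4, mul_one]

lemma tprod_eq (r : ℕ) : ∏' l : ℕ, (1 - (1 / 2 : ℝ) ^ (r + 1 + l)) = S r := by
  have h1 := t_SER r
  have h2 : Tendsto (fun m : ℕ => ∑ i ∈ range (m + 1), t r i) atTop (𝓝 (S r)) :=
    ((summable_t r).hasSum.tendsto_sum_nat).comp (tendsto_add_atTop_nat 1)
  exact tendsto_nhds_unique h1 h2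

lemma law_eq (r j : ℕ) : law r j = (alt r j : ℝ) / 2 ^ (r * (r - 1) / 2) * FK r := by
  unfold law FK
  rw [gl_eq, tprod_eq, S_prod r, one_div_pow]
  have h1 := Q_pos r
  field_simp

lemma law_nonneg (r j : ℕ) : 0 ≤ law r j := by
  rw [law_eq]
  have := FK_nonneg r
  positivity

lemma pl_nonneg (a : ℕ × ℕ) : 0 ≤ pl a := by
  unfold pl
  split_ifs
  · exact law_nonneg _ _
  · exact le_refl _

/-- the sums over the Selmer rank -/
lemma row_sum (r : ℕ) (f : ℕ → ℝ) :
    HasSum (fun s : ℕ => f s * pl (r, s)) (∑ j ∈ range (r + 1), f (r + j) * law r j) := by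
  have hinj : Function.Injective (fun j : ℕ => r + j) := fun a b h => by
    simpa using h
  rw [← hinj.hasSum_iff]
  · have h1 : ((fun s : ℕ => f s * pl (r, s)) ∘ fun j : ℕ => r + j) =
        fun j => f (r + j) * law r j := by
      funext j
      simp only [Function.comp_apply, pl]
      rw [if_pos (Nat.le_add_right _ _), Nat.add_sub_cancel_left]
    rw [h1]
    apply hasSum_sum_of_ne_finset_zero
    intro j hj
    rw [mem_range, not_lt] at hj
    rw [law_eq, alt_zero (by omega : r < j)]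
    simp
  · intro s hs
    have h1 : ¬ r ≤ s := fun h => hs ⟨s - r, by simp; omega⟩
    simp only [pl]
    rw [if_neg h1, mul_zero]

lemma row_avg (r : ℕ) : HasSum (fun s : ℕ => (2 : ℝ) ^ s * pl (r, s))
    (3 * (2 ^ r * FK r) - 2 * FK r) := by
  have h := row_sum r (fun s => 2 ^ s)
  have h1 : ∑ j ∈ range (r + 1), (2 : ℝ) ^ (r + j) * law r j = 3 * (2 ^ r * FK r) - 2 * FK r := by
    have h2 := alt_two r
    have h3 : (2 : ℝ) ^ (r * (r - 1) / 2) ≠ 0 := by positivity
    have h4 : ∑ j ∈ range (r + 1), (2 : ℝ) ^ (r + j) * law r j =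
        (∑ j ∈ range (r + 1), (alt r j : ℝ) * 2 ^ j * 2 ^ r) * (FK r / 2 ^ (r * (r - 1) / 2)) := by
      rw [sum_mul]
      refine sum_congr rfl fun j _ => ?_
      rw [law_eq, pow_add]
      ring
    rw [h4, h2]
    field_simp
  rw [h1] at h
  exact h

lemma row_one (r : ℕ) : HasSum (fun s : ℕ => pl (r, s)) (FK r) := by
  have h := row_sum r (fun s => 1)
  have h1 : ∑ j ∈ range (r + 1), (1 : ℝ) * law r j = FK r := by
    have h2 := alt_one r
    have h3 : (2 : ℝ) ^ (r * (r - 1) / 2) ≠ 0 := by positivity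
    have h4 : ∑ j ∈ range (r + 1), (1 : ℝ) * law r j =
        (∑ j ∈ range (r + 1), (alt r j : ℝ)) * (FK r / 2 ^ (r * (r - 1) / 2)) := by
      rw [sum_mul]
      refine sum_congr rfl fun j _ => ?_
      rw [law_eq]
      ring
    rw [h4, h2]
    field_simp
  rw [h1] at h
  simpa using h

lemma prod_sum {f : ℕ × ℕ → ℝ} (hf : ∀ a, 0 ≤ f a) {g : ℕ → ℝ} {c : ℝ}
    (h1 : ∀ r, HasSum (fun s => f (r, s)) (g r)) (h2 : HasSum g c) : HasSum f c := by
  have hs : Summable f := by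
    rw [summable_prod_of_nonneg hf]
    refine ⟨fun r => (h1 r).summable, ?_⟩
    have : (fun r => ∑' s, f (r, s)) = g := funext fun r => (h1 r).tsum_eq
    rw [this]
    exact h2.summable
  have h3 := hs.hasSum.prod_fiberwise h1
  have h4 := h3.unique h2
  rw [← h4]
  exact hs.hasSum

/-- SLX-MASS: the law is a probability law -/
theorem t_MASS : S_MASS :=
  ⟨law_nonneg, prod_sum pl_nonneg row_one FK_sum⟩

/-- SLX-AVG: the mean of `2 ^ s` -/
theorem t_AVG : S_AVG := by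
  refine prod_sum (fun a => mul_nonneg (by positivity) (pl_nonneg a)) row_avg ?_
  have h := (FK_two.mul_left 3).sub (FK_sum.mul_left 2)
  have e : (3 * 2 - 2 * 1 : ℝ) = 4 := by norm_num
  rw [e] at h
  exact h

end Pool.Agent.N570.SLX

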